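import Mathlib
import Pool.Agent.Helper35.HC.StE

/-! Project HC, module DR0: gradients of `⟨F,w⟩`, `⟨HH,w⟩`, `|w^⊤|²`, `|HH|²` in one orthonormal
frame. -/

set_option autoImplicit false

namespace Helper99.HC

open Helper35.HC Helper35.HSF Helper35.MS Helper35.PI Helper35.PI2 Helper32.CL
open scoped ContDiff Manifold Topology ENNReal BigOperators
open MeasureTheory Set Filter

/-- Smoothness can be checked in the preferred charts. -/
lemma dr_lift {n : ℕ} {M : Type} [TopologicalSpace M] [ChartedSpace (EE n) M]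
    [IsManifold (𝓡 n) ∞ M] {V : Type} [NormedAddCommGroup V] [NormedSpace ℝ V] (J : Set ℝ)
    (u : M → ℝ → V)
    (h : ∀ p : M, ∀ t ∈ J, ContDiffAt ℝ ∞
      (fun z : EE n × ℝ => u ((chartAt (EE n) p).symm z.1) z.2) (chartAt (EE n) p p, t)) :
    ContMDiffOn ((𝓡 n).prod 𝓘(ℝ, ℝ)) 𝓘(ℝ, V) ∞ (fun z : M × ℝ => u z.1 z.2) (univ ×ˢ J) := by
  rintro ⟨p, t⟩ ⟨-, ht⟩
  apply ContMDiffAt.contMDiffWithinAt
  have h1 : ContMDiffAt ((𝓡 n).prod 𝓘(ℝ, ℝ)) 𝓘(ℝ, EE n × ℝ) ∞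
      (fun z : M × ℝ => (chartAt (EE n) p z.1, z.2)) (p, t) := by
    refine ContMDiffAt.prodMk_space ?_ contMDiffAt_snd
    have h2 : ContMDiffAt (𝓡 n) (𝓡 n) ∞ (chartAt (EE n) p) p :=
      contMDiffOn_chart.contMDiffAt
        ((chartAt (EE n) p).open_source.mem_nhds (mem_chart_source (EE n) p))
    exact ContMDiffAt.comp (g := chartAt (EE n) p) (f := (Prod.fst : M × ℝ → M)) (p, t) h2
      contMDiffAt_fst
  have h3 := ContMDiffAt.comp (g := fun z : EE n × ℝ => u ((chartAt (EE n) p).symm z.1) z.2)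
    (f := fun z : M × ℝ => (chartAt (EE n) p z.1, z.2)) (p, t) (h p t ht).contMDiffAt h1
  refine h3.congr_of_eventuallyEq ?_
  have h4 : (chartAt (EE n) p).source ×ˢ (univ : Set ℝ) ∈ 𝓝 (p, t) :=
    prod_mem_nhds ((chartAt (EE n) p).open_source.mem_nhds (mem_chart_source (EE n) p)) univ_mem
  filter_upwards [h4] with z hz
  simp only [Function.comp_apply, (chartAt (EE n) p).left_inv hz.1]

lemma dr_cdc {n : ℕ} {M : Type} [TopologicalSpace M] [ChartedSpace (EE n) M]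
    {V W : Type} [NormedAddCommGroup V] [NormedSpace ℝ V] [NormedAddCommGroup W] [NormedSpace ℝ W]
    {J : Set ℝ} {u : M → ℝ → V} (g : V → W) (hg : ContDiff ℝ ∞ g)
    (hu : ContMDiffOn ((𝓡 n).prod 𝓘(ℝ, ℝ)) 𝓘(ℝ, V) ∞ (fun z : M × ℝ => u z.1 z.2) (univ ×ˢ J)) :
    ContMDiffOn ((𝓡 n).prod 𝓘(ℝ, ℝ)) 𝓘(ℝ, W) ∞ (fun z : M × ℝ => g (u z.1 z.2)) (univ ×ˢ J) :=
  ContMDiff.comp_contMDiffOn (g := g) hg.contMDiff hu

/-- squared norm of the tangential part of `w` -/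
noncomputable def ptf {n N : ℕ} (f : EE n → EE N) (x : EE n) (w : EE N) : ℝ :=
  ∑ k, ∑ l, (gram f x)⁻¹ k l * ((inner ℝ w (dv1 f x k) : ℝ) * inner ℝ w (dv1 f x l))

lemma dr_orth {n N : ℕ} (hNR : StNR) {f : EE n → EE N} {x : EE n} (hf : LI f x) (w : EE N)
    {s : EE N} (hs : s ∈ Submodule.span ℝ (range fun i => dv1 f x i)) :
    (inner ℝ (nrm f x w) s : ℝ) = 0 := by
  obtain ⟨h1, -⟩ := hNR n N f x hf
  induction hs using Submodule.span_induction with
  | mem y hy =>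
    obtain ⟨i, rfl⟩ := hy
    exact h1 w i
  | zero => simp
  | add a b _ _ ha hb => rw [inner_add_right, ha, hb, add_zero]
  | smul c a _ ha => rw [real_inner_smul_right, ha, mul_zero]

lemma dr_same {n N : ℕ} (hNR : StNR) {f g : EE n → EE N} {x y : EE n} (hf : LI f x)
    (hg : LI g y) (hs : Submodule.span ℝ (range fun i => dv1 f x i)
      = Submodule.span ℝ (range fun i => dv1 g y i)) (w : EE N) :
    nrm f x w = nrm g y w := by
  obtain ⟨-, -, f3, -⟩ := hNR n N f x hf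
  obtain ⟨-, -, g3, -⟩ := hNR n N g y hg
  have h1 : nrm f x w - nrm g y w ∈ Submodule.span ℝ (range fun i => dv1 f x i) := by
    have h2 : nrm f x w - nrm g y w = (w - nrm g y w) - (w - nrm f x w) := by abel
    rw [h2]
    refine Submodule.sub_mem _ ?_ (f3 w)
    rw [hs]
    exact g3 w
  have h2 := dr_orth hNR hf w h1
  have h3 := dr_orth hNR hg w (hs ▸ h1)
  have h4 : (inner ℝ (nrm f x w - nrm g y w) (nrm f x w - nrm g y w) : ℝ) = 0 := by
    rw [inner_sub_left, h2, h3, sub_zero]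
  exact sub_eq_zero.1 (inner_self_eq_zero.1 h4)

lemma dr_ptf {n N : ℕ} (hNR : StNR) {f : EE n → EE N} {x : EE n} (hf : LI f x) (w : EE N) :
    ‖w - nrm f x w‖ ^ 2 = ptf f x w := by
  obtain ⟨-, -, f3, -⟩ := hNR n N f x hf
  have h1 := dr_orth hNR hf w (f3 w)
  have h2 : ‖w - nrm f x w‖ ^ 2 = inner ℝ w (w - nrm f x w) := by
    rw [← real_inner_self_eq_norm_sq, inner_sub_left, h1, sub_zero]
  rw [h2]
  unfold nrm ptf
  rw [sub_sub_cancel, inner_sum]
  refine Finset.sum_congr rfl fun k _ => ?_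
  rw [inner_sum]
  refine Finset.sum_congr rfl fun l _ => ?_
  rw [real_inner_smul_right]
  ring

lemma dr_gd {n N : ℕ} {M : Type} [TopologicalSpace M] [ChartedSpace (EE n) M]
    (F : M → ℝ → EE N) (q : M) (t : ℝ)
    (hd : DifferentiableAt ℝ (loc (n := n) F q t) (chartAt (EE n) q q)) (w : EE N) :
    gdM n F t (fun p => (inner ℝ (F p t) w : ℝ)) q
      = w - nrm (loc (n := n) F q t) (chartAt (EE n) q q) w := by
  have h1 : ∀ k, fderiv ℝ (fun y => (inner ℝ (F ((chartAt (EE n) q).symm y) t) w : ℝ))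
      (chartAt (EE n) q q) (ee k)
      = inner ℝ w (dv1 (loc (n := n) F q t) (chartAt (EE n) q q) k) := by
    intro k
    have h2 := hd.hasFDerivAt.inner ℝ (hasFDerivAt_const w (chartAt (EE n) q q))
    have h3 : (fun y => (inner ℝ (F ((chartAt (EE n) q).symm y) t) w : ℝ))
        = fun y => inner ℝ (loc (n := n) F q t y) w := rfl
    rw [h3, h2.fderiv]
    simp [dv1, real_inner_comm]
  unfold gdM nrm
  rw [sub_sub_cancel]
  refine Finset.sum_congr rfl fun k _ => Finset.sum_congr rfl fun l _ => ?_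
  rw [h1 k]

lemma dr_norm {n N : ℕ} {M : Type} [TopologicalSpace M] [ChartedSpace (EE n) M]
    (hNR : StNR) {F : M → ℝ → EE N} {q : M} {t : ℝ}
    (hd : DifferentiableAt ℝ (loc (n := n) F q t) (chartAt (EE n) q q))
    (hi : LI (loc (n := n) F q t) (chartAt (EE n) q q)) {g : EE n → EE N} {y : EE n}
    (hg : LI g y) (hs : Submodule.span ℝ (range fun i => dv1 g y i) = TS (n := n) F q t)
    (w : EE N) :
    ‖gdM n F t (fun p => (inner ℝ (F p t) w : ℝ)) q‖ ^ 2 = ptf g y w := by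
  rw [dr_gd F q t hd w, dr_same hNR hi hg (by rw [hs]; rfl) w, dr_ptf hNR hg w]

lemma dr_smooth {n N : ℕ} {M : Type} [TopologicalSpace M] [ChartedSpace (EE n) M]
    [IsManifold (𝓡 n) ∞ M] (hSM : Helper35.PI.StSM) (hNR : StNR) (hI2J : StI2J)
    (hI3J : StI3J) (J : Set ℝ) (F : M → ℝ → EE N) (hF : IsImmJ (n := n) J F)
    (hdiff : ∀ (q : M) (t : ℝ), t ∈ J →
      DifferentiableAt ℝ (loc (n := n) F q t) (chartAt (EE n) q q)) (w : EE N) :
    SmJ n J (fun q t => ‖gdM n F t (fun p => (inner ℝ (F p t) w : ℝ)) q‖ ^ 2) := by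
  refine dr_lift (V := ℝ) J
    (fun q t => ‖gdM n F t (fun p => (inner ℝ (F p t) w : ℝ)) q‖ ^ 2) fun p t ht => ?_
  have hcd : ContDiffAt ℝ ∞
      (fun z : EE n × ℝ => F ((chartAt (EE n) p).symm z.1) z.2) (chartAt (EE n) p p, t) :=
    (hI2J n N M J F hF p).contDiffAt
      (prod_mem_nhds ((chartAt (EE n) p).open_target.mem_nhds (mem_chart_target (EE n) p))
        (hF.op.mem_nhds ht))
  obtain ⟨e1, e2, -, -, -, e3, -⟩ := hSM n N _ _ hcd (hF.imm p t ht)
  have h0 : ContDiffAt ℝ ∞ (fun z : EE n × ℝ => ∑ k, ∑ l,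
      (gram (fun y => F ((chartAt (EE n) p).symm y) z.2) z.1)⁻¹ k l *
        ((inner ℝ w (jg (fun z : EE n × ℝ => F ((chartAt (EE n) p).symm z.1) z.2) z k) : ℝ) *
        inner ℝ w (jg (fun z : EE n × ℝ => F ((chartAt (EE n) p).symm z.1) z.2) z l)))
      (chartAt (EE n) p p, t) := by
    have e4 : ∀ k, ContDiffAt ℝ ∞ (fun z : EE n × ℝ => (inner ℝ w
        (jg (fun z : EE n × ℝ => F ((chartAt (EE n) p).symm z.1) z.2) z k) : ℝ))
        (chartAt (EE n) p p, t) := fun k =>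
      ContDiffAt.inner ℝ (f := fun _ : EE n × ℝ => w) contDiffAt_const (e2 k)
    exact ContDiffAt.sum fun k _ => ContDiffAt.sum fun l _ => (e3 k l).mul ((e4 k).mul (e4 l))
  refine h0.congr_of_eventuallyEq ?_
  have hnh : ∀ᶠ z : EE n × ℝ in 𝓝 (chartAt (EE n) p p, t),
      z.1 ∈ (chartAt (EE n) p).target ∧ z.2 ∈ J :=
    prod_mem_nhds ((chartAt (EE n) p).open_target.mem_nhds (mem_chart_target (EE n) p))
        (hF.op.mem_nhds ht)
  filter_upwards [hnh, e1] with z hz he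
  obtain ⟨i1, -, -, -, i5⟩ := hI3J n N M J F hF p ((chartAt (EE n) p).symm z.1) z.2 hz.2
    ((chartAt (EE n) p).map_target hz.1)
  rw [(chartAt (EE n) p).right_inv hz.1] at i1 i5
  rw [dr_norm hNR (hdiff _ _ hz.2) (hF.imm _ _ hz.2) i1 i5.symm w]
  unfold ptf
  refine Finset.sum_congr rfl fun k _ => Finset.sum_congr rfl fun l _ => ?_
  rw [← he.2.2.1 k, ← he.2.2.1 l]
  rfl

/-- derivative at the centre of the squared norm of the tangential part -/
lemma dr_jg {n N : ℕ} (hG1 : StG1) (hG2 : StG2) (hG3 : StG3) (hG5 : StG5) {x₀ : EE N}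
    {L : EE n →ₗᵢ[ℝ] EE N} {u : EE n × ℝ → EE N} {t : ℝ} (hs : GraphSol x₀ L u t) (w : EE N)
    (m : Fin n) :
    jg (fun z : EE n × ℝ => ptf (grf x₀ L u z.2) z.1 w) (0, t) m
      = 2 * ∑ a, (inner ℝ (L (ee a)) w : ℝ) * inner ℝ (jgg u (0, t) a m) w := by
  obtain ⟨s1, -⟩ := hG1 n N x₀ L u t hs
  have s2 := hG2 n N x₀ L u t hs
  obtain ⟨s3, -⟩ := hG3 n N x₀ L u t hs
  have s5 := hG5 n N x₀ L u t hs
  have ha : ∀ k, HasFDerivAt (fun z => (inner ℝ w (L (ee k) + jg u z k) : ℝ))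
      (fderiv ℝ (fun z => (inner ℝ w (L (ee k) + jg u z k) : ℝ)) (0, t)) (0, t) := by
    intro k
    have h1 : DifferentiableAt ℝ (fun z => jg u z k) ((0 : EE n), t) :=
      (s3 k).1.differentiableAt (by norm_num)
    exact ((differentiableAt_const w).inner ℝ
      ((differentiableAt_const (L (ee k))).add h1)).hasFDerivAt
  have hav : ∀ k, fderiv ℝ (fun z => (inner ℝ w (L (ee k) + jg u z k) : ℝ)) (0, t) (ee m, 0)
      = inner ℝ w (jgg u (0, t) m k) := by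
    intro k
    have h1 : DifferentiableAt ℝ (fun z => jg u z k) ((0 : EE n), t) :=
      (s3 k).1.differentiableAt (by norm_num)
    have h2 := (hasFDerivAt_const w ((0 : EE n), t)).inner ℝ
      ((hasFDerivAt_const (L (ee k)) ((0 : EE n), t)).fun_add h1.hasFDerivAt)
    rw [h2.fderiv]
    simp [jgg, jg]
  have hG : ∀ k l, HasFDerivAt (GIf x₀ L u k l) (fderiv ℝ (GIf x₀ L u k l) (0, t)) (0, t) :=
    fun k l => ((s5 k l).1.differentiableAt (by norm_num)).hasFDerivAt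
  have heq : (fun z : EE n × ℝ => ptf (grf x₀ L u z.2) z.1 w) =ᶠ[𝓝 (0, t)]
      fun z => ∑ k, ∑ l, GIf x₀ L u k l z *
        ((inner ℝ w (L (ee k) + jg u z k) : ℝ) * inner ℝ w (L (ee l) + jg u z l)) := by
    filter_upwards [s2] with z hz
    unfold ptf
    refine Finset.sum_congr rfl fun k _ => Finset.sum_congr rfl fun l _ => ?_
    rw [hz.1 k, hz.1 l]
    rfl
  have hψ := HasFDerivAt.fun_sum (u := Finset.univ) fun k (_ : k ∈ Finset.univ) =>
    HasFDerivAt.fun_sum (u := Finset.univ) fun l (_ : l ∈ Finset.univ) =>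
      (hG k l).mul ((ha k).mul (ha l))
  have h7 : fderiv ℝ (fun z => ∑ k, ∑ l, GIf x₀ L u k l z *
      ((inner ℝ w (L (ee k) + jg u z k) : ℝ) * inner ℝ w (L (ee l) + jg u z l))) (0, t) = _ :=
    hψ.fderiv
  have h8 : jg (fun z : EE n × ℝ => ptf (grf x₀ L u z.2) z.1 w) (0, t) m
      = fderiv ℝ (fun z => ∑ k, ∑ l, GIf x₀ L u k l z *
      ((inner ℝ w (L (ee k) + jg u z k) : ℝ) * inner ℝ w (L (ee l) + jg u z l))) (0, t)
        (ee m, 0) := by
    unfold jg at heq ⊢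
    rw [heq.fderiv_eq]
  rw [h8, h7]
  have g1 : ∀ k l, fderiv ℝ (GIf x₀ L u k l) (0, t) (ee m, 0) = 0 := fun k l =>
    (s5 k l).2.2.1 m
  simp only [sum_apply, add_apply, smul_apply, hav, g1, hs.du0, (s5 _ _).2.1, smul_eq_mul, mul_zero,
    add_zero]
  simp only [ite_mul, one_mul, zero_mul, Finset.sum_ite_eq, Finset.mem_univ, if_true]
  rw [Finset.mul_sum]
  refine Finset.sum_congr rfl fun k _ => ?_
  rw [s1 m k, real_inner_comm w, real_inner_comm w]
  ring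

theorem hDR0 (hGCX : StGCX) (hGH : StGH) (hG1 : StG1) (hG2 : StG2) (hG3 : StG3)
    (hG5 : StG5) (hG7 : StG7) (hG8 : StG8) (hSM : Helper35.PI.StSM) (hNR : StNR) (hC1 : StC1)
    (hI2J : StI2J) (hI3J : StI3J) (hSMF : StSMF) (hHSJ : StHSJ) : StDR0 := by
  intro n N hn1 M _ _ _ J F hf
  have imm : IsImmJ (n := n) J F := hf.toIsImmJ
  obtain ⟨sF, sH, sA, sY, sθ, sFw, -⟩ := hSMF n N M J F imm
  have hdiff : ∀ (q : M) (t : ℝ), t ∈ J →
      DifferentiableAt ℝ (loc (n := n) F q t) (chartAt (EE n) q q) := by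
    intro q t ht
    have h1 := hI2J n N M J F imm q
    have hmem : ((chartAt (EE n) q).target ×ˢ J) ∈ 𝓝 ((chartAt (EE n) q q), t) :=
      prod_mem_nhds ((chartAt (EE n) q).open_target.mem_nhds (mem_chart_target (EE n) q))
        (imm.op.mem_nhds ht)
    have h2 := h1.contDiffAt hmem
    have h3 : ContDiffAt ℝ ∞ (fun x : EE n => ((x, t) : EE n × ℝ)) (chartAt (EE n) q q) :=
      contDiffAt_id.prodMk contDiffAt_const
    have h4 := ContDiffAt.comp (chartAt (EE n) q q) h2 h3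
    exact h4.differentiableAt (by simp)
  have sHw : ∀ w : EE N, SmJ n J (fun q t => (inner ℝ (HH (n := n) F q t) w : ℝ)) := fun w =>
    dr_cdc (n := n) (u := HH (n := n) F) (fun v : EE N => (inner ℝ v w : ℝ))
      (contDiff_id.inner ℝ contDiff_const) sH
  have sPw : ∀ w : EE N,
      SmJ n J (fun q t => ‖gdM n F t (fun p => (inner ℝ (F p t) w : ℝ)) q‖ ^ 2) := fun w =>
    dr_smooth hSM hNR hI2J hI3J J F imm hdiff w
  refine ⟨fun w => ⟨sHw w, sPw w⟩, ?_⟩
  intro q t ht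
  have hLI : LI (loc (n := n) F q t) (chartAt (EE n) q q) := imm.imm q t ht
  obtain ⟨L, hL⟩ := hC1 n N _ hLI
  obtain ⟨u, θ, hc, tr, hE, -⟩ := hGCX n N M J F hf q t ht L hL
  obtain ⟨g1, g2, g3, g4⟩ := hG1 n N (F q t) L u t hc.sol
  have g22 := hG2 n N (F q t) L u t hc.sol
  obtain ⟨x1, x2, x3, x4⟩ := hG7 n N (F q t) L u t hc.sol _ _ rfl rfl
  obtain ⟨y1, y2, y3, y4⟩ := hG8 n N (F q t) L u t hc.sol _ _ rfl rfl
  obtain ⟨w1, w2, w3, -⟩ := hGH n N (F q t) L u t hc.sol _ _ rfl rfl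
  obtain ⟨e1, e2, e3⟩ := hHSJ n N hn1 (F q t) L u t hc.sol _ _ rfl rfl
  have hJg := dr_jg hG1 hG2 hG3 hG5 hc.sol
  have hu1 : DifferentiableAt ℝ u (0, t) := hc.sol.smooth.differentiableAt (by simp)
  have hdu := hc.sol.du0
  set A := jgg u (0, t) with hA
  set T := jggg u (0, t) with hT
  obtain ⟨k1, k2, k3⟩ := hc.hH.self_of_nhds
  have kE := hE.self_of_nhds
  rw [hc.pt] at k1 k2 k3 kE
  have vH : HH (n := n) F q t = Hv A := k1.trans w2
  have vA : AA (n := n) F q t = XX A := k2.trans x2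
  have vE : eH n F q t = eq2 T := kE.trans e2
  have vY : ‖HH (n := n) F q t‖ ^ 2 = YY A := by
    rw [vH]
    rfl
  have vθ : thN n F q t = thA2 A := by
    unfold thN thA2
    rw [vA, vY]
  refine ⟨L, A, T, g1, g2, g3, hL, vA, vH, vθ, vE, ?_, fun w => ⟨?_, ?_, ?_⟩⟩
  · have eY : (fun z : EE n × ℝ => ‖HH (n := n) F (θ z) z.2‖ ^ 2) =ᶠ[𝓝 (0, t)]
        Yf (F q t) L u := by
      filter_upwards [hc.hH] with z hz
      show ‖HH (n := n) F (θ z) z.2‖ ^ 2 = ‖mcv (grf (F q t) L u z.2) z.1‖ ^ 2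
      rw [hz.1]
    rw [(tr (fun q t => ‖HH (n := n) F q t‖ ^ 2) sY).2.2.2]
    refine Finset.sum_congr rfl fun k _ => ?_
    have h1 : jg (fun z : EE n × ℝ => ‖HH (n := n) F (θ z) z.2‖ ^ 2) (0, t) k
        = jg (Yf (F q t) L u) (0, t) k := by
      unfold jg
      rw [eY.fderiv_eq]
    rw [h1, y3 k]
    rfl
  · have eF : (fun z : EE n × ℝ => (inner ℝ (F (θ z) z.2) w : ℝ)) =ᶠ[𝓝 (0, t)]
        fun z => inner ℝ (F q t + L z.1 + u z) w := by
      filter_upwards [hc.eq] with z hz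
      rw [hz]
      rfl
    rw [(tr (fun q t => (inner ℝ (F q t) w : ℝ)) (sFw w)).2.2.2]
    refine Finset.sum_congr rfl fun k _ => ?_
    have h1 : jg (fun z : EE n × ℝ => (inner ℝ (F (θ z) z.2) w : ℝ)) (0, t) k
        = inner ℝ (L (ee k)) w := by
      unfold jg
      rw [eF.fderiv_eq]
      have h2 : HasFDerivAt (fun z : EE n × ℝ => F q t + L z.1 + u z)
          (L.toContinuousLinearMap.comp (ContinuousLinearMap.fst ℝ (EE n) ℝ)
            + fderiv ℝ u (0, t)) (0, t) := by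
        have h3 : HasFDerivAt (fun z : EE n × ℝ => L z.1)
            (L.toContinuousLinearMap.comp (ContinuousLinearMap.fst ℝ (EE n) ℝ)) (0, t) :=
          (L.toContinuousLinearMap.comp (ContinuousLinearMap.fst ℝ (EE n) ℝ)).hasFDerivAt
        exact (h3.const_add (F q t)).fun_add hu1.hasFDerivAt
      have h4 := h2.inner ℝ (hasFDerivAt_const w ((0 : EE n), t))
      have h5 : fderiv ℝ u (0, t) (ee k, 0) = 0 := hdu k
      rw [h4.fderiv]
      simp [h5]
    rw [h1]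
  · have eH' : (fun z : EE n × ℝ => (inner ℝ (HH (n := n) F (θ z) z.2) w : ℝ)) =ᶠ[𝓝 (0, t)]
        fun z => inner ℝ (Hf (F q t) L u z) w := by
      filter_upwards [hc.hH] with z hz
      rw [hz.1]
      rfl
    rw [(tr (fun q t => (inner ℝ (HH (n := n) F q t) w : ℝ)) (sHw w)).2.2.2]
    refine Finset.sum_congr rfl fun k _ => ?_
    have h1 : jg (fun z : EE n × ℝ => (inner ℝ (HH (n := n) F (θ z) z.2) w : ℝ)) (0, t) k
        = inner ℝ (jg (Hf (F q t) L u) (0, t) k) w := by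
      have hd : DifferentiableAt ℝ (Hf (F q t) L u) (0, t) := w1.differentiableAt (by simp)
      have h4 := hd.hasFDerivAt.inner ℝ (hasFDerivAt_const w ((0 : EE n), t))
      unfold jg
      rw [eH'.fderiv_eq, h4.fderiv]
      simp
    rw [h1, w3 k, inner_sub_left, sum_inner]
    simp only [real_inner_smul_left]
  · have eP : (fun z : EE n × ℝ =>
        ‖gdM n F z.2 (fun p => (inner ℝ (F p z.2) w : ℝ)) (θ z)‖ ^ 2) =ᶠ[𝓝 (0, t)]
        fun z => ptf (grf (F q t) L u z.2) z.1 w := by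
      have hJ : ∀ᶠ z in 𝓝 ((0 : EE n), t), z.2 ∈ J :=
        continuousAt_snd.eventually (imm.op.mem_nhds ht)
      filter_upwards [hJ, g22, hc.ts] with z h1 h2 h3
      exact dr_norm hNR (hdiff _ _ h1) (imm.imm _ _ h1) h2.2.2.2.2 h3 w
    rw [(tr (fun q t => ‖gdM n F t (fun p => (inner ℝ (F p t) w : ℝ)) q‖ ^ 2) (sPw w)).2.2.2]
    refine Finset.sum_congr rfl fun k _ => ?_
    rw [← hJg w k]
    congr 1
    unfold jg
    rw [eP.fderiv_eq]

end Helper99.HC
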