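import Mathlib
import Pool.Agent.Helper35.HC.StB

/-! Project HC, module GCP: polarised graph chart transfer. -/

set_option autoImplicit false

namespace Helper99.HC

open Helper35.HC Helper35.HSF Helper35.MS Helper35.PI Helper35.PI2 Helper32.CL
open scoped ContDiff Manifold Topology ENNReal BigOperators
open MeasureTheory Set Filter

/-- second derivatives commute -/
lemma gcp_symm {E F : Type*} [NormedAddCommGroup E] [NormedSpace ℝ E] [NormedAddCommGroup F]
    [NormedSpace ℝ F] {f : E → F} {x : E} (hf : ContDiffAt ℝ 2 f x) (v w : E) :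
    fderiv ℝ (fun y => fderiv ℝ f y w) x v = fderiv ℝ (fun y => fderiv ℝ f y v) x w := by
  have hd : DifferentiableAt ℝ (fderiv ℝ f) x :=
    (hf.fderiv_right (m := 1) (by norm_num)).differentiableAt (by norm_num)
  have key : ∀ a b : E, fderiv ℝ (fun y => fderiv ℝ f y b) x a
      = fderiv ℝ (fderiv ℝ f) x a b := by
    intro a b
    have h1 : HasFDerivAt (fun y => fderiv ℝ f y b)
        ((ContinuousLinearMap.apply ℝ F b).comp (fderiv ℝ (fderiv ℝ f) x)) x :=
      (ContinuousLinearMap.apply ℝ F b).hasFDerivAt.comp x hd.hasFDerivAt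
    rw [h1.fderiv]
    rfl
  have hs : IsSymmSndFDerivAt ℝ f x := hf.isSymmSndFDerivAt (by simp)
  rw [key, key]
  exact hs.eq v w

lemma gcp_sff {n N : ℕ} {f : EE n → EE N} {x : EE n} (hf : ContDiffAt ℝ 2 f x) (i j : Fin n) :
    sff f x i j = sff f x j i := by
  unfold sff dv2
  rw [gcp_symm hf]

lemma gcp_jgg {n N : ℕ} {u : EE n × ℝ → EE N} {z : EE n × ℝ} (hf : ContDiffAt ℝ 2 u z)
    (i j : Fin n) : jgg u z i j = jgg u z j i := by
  unfold jgg jg
  rw [gcp_symm hf]

/-- the bilinear expression -/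
noncomputable def gB {n N : ℕ} (A : Fin n → Fin n → EE N) (c d : Fin n → ℝ) : EE N :=
  ∑ i, ∑ j, (c i * d j) • A i j

lemma gB_add {n N : ℕ} (A : Fin n → Fin n → EE N) (c d : Fin n → ℝ) :
    gB A (c + d) (c + d) = gB A c c + gB A c d + gB A d c + gB A d d := by
  unfold gB
  simp only [← Finset.sum_add_distrib, ← add_smul]
  refine Finset.sum_congr rfl fun i _ => Finset.sum_congr rfl fun j _ => ?_
  congr 1
  simp only [Pi.add_apply]
  ring

lemma gB_symm {n N : ℕ} {A : Fin n → Fin n → EE N} (hA : ∀ i j, A i j = A j i)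
    (c d : Fin n → ℝ) : gB A c d = gB A d c := by
  unfold gB
  rw [Finset.sum_comm]
  refine Finset.sum_congr rfl fun i _ => Finset.sum_congr rfl fun j _ => ?_
  rw [hA j i, mul_comm]

/-- polarisation with an injective frame -/
lemma gcp_pol {n N : ℕ} {A B : Fin n → Fin n → EE N} (hA : ∀ i j, A i j = A j i)
    (hB : ∀ i j, B i j = B j i) {a b : Fin n → EE N} (ha : LinearIndependent ℝ a)
    (h : ∀ U : Fin n → ℝ, ∃ c : Fin n → ℝ, ∑ i, c i • a i = ∑ i, U i • b i ∧
      gB A c c = gB B U U) (U V : Fin n → ℝ) :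
    ∃ c d : Fin n → ℝ, ∑ i, c i • a i = ∑ i, U i • b i ∧
      ∑ i, d i • a i = ∑ i, V i • b i ∧ gB A c d = gB B U V := by
  obtain ⟨c, hc1, hc2⟩ := h U
  obtain ⟨d, hd1, hd2⟩ := h V
  obtain ⟨e, he1, he2⟩ := h (U + V)
  have he : e = c + d := by
    have h0 : ∑ i, (e i - (c i + d i)) • a i = 0 := by
      simp only [sub_smul, add_smul, Finset.sum_sub_distrib, Finset.sum_add_distrib]
      rw [he1, hc1, hd1]
      simp only [Pi.add_apply, add_smul, Finset.sum_add_distrib]
      abel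
    have h1 := (Fintype.linearIndependent_iff.1 ha) _ h0
    funext i
    have := h1 i
    simp only [Pi.add_apply]
    linarith
  refine ⟨c, d, hc1, hd1, ?_⟩
  rw [he, gB_add, gB_add, hc2, hd2, gB_symm hA d c, gB_symm hB V U] at he2
  have h2 : (2 : ℝ) • gB A c d = (2 : ℝ) • gB B U V := by
    rw [two_smul, two_smul]
    have h3 : gB B U U + gB A c d + gB A c d + gB B V V
        - gB B U U - gB B V V = gB B U U + gB B U V + gB B U V + gB B V V
        - gB B U U - gB B V V := by rw [he2]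
    have h4 : gB B U U + gB A c d + gB A c d + gB B V V
        - gB B U U - gB B V V = gB A c d + gB A c d := by abel
    have h5 : gB B U U + gB B U V + gB B U V + gB B V V
        - gB B U U - gB B V V = gB B U V + gB B U V := by abel
    rw [h4, h5] at h3
    exact h3
  exact smul_right_injective _ (two_ne_zero) h2

theorem hGCP (hI2J : StI2J) : StGCP := by
  intro n N M _ _ _ J F hF p₀ t₀ ht₀ L u θ hC
  have hloc : ∀ (q : M) (t : ℝ), t ∈ J →
      ContDiffAt ℝ 2 (loc (n := n) F q t) (chartAt (EE n) q q) := by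
    intro q t ht
    have h1 := hI2J n N M J F hF q
    have hq : (chartAt (EE n) q q) ∈ (chartAt (EE n) q).target :=
      (chartAt (EE n) q).map_source (mem_chart_source _ _)
    have hmem : ((chartAt (EE n) q).target ×ˢ J) ∈ 𝓝 ((chartAt (EE n) q q), t) :=
      ((chartAt (EE n) q).open_target.prod hF.op).mem_nhds ⟨hq, ht⟩
    have h2 := h1.contDiffAt hmem
    have h3 : ContDiffAt ℝ ∞ (fun x : EE n => ((x, t) : EE n × ℝ)) (chartAt (EE n) q q) :=
      contDiffAt_id.prodMk contDiffAt_const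
    have h4 := ContDiffAt.comp (chartAt (EE n) q q) h2 h3
    exact h4.of_le (WithTop.coe_le_coe.2 (le_top : (2 : ℕ∞) ≤ ⊤))
  have hu2 : ContDiffAt ℝ 2 u (0, t₀) := hC.sol.smooth.of_le (WithTop.coe_le_coe.2 (le_top : (2 : ℕ∞) ≤ ⊤))
  have hLI : LinearIndependent ℝ (fun i : Fin n => L (ee i)) := by
    have h1 : LinearIndependent ℝ (fun i : Fin n => (ee i : EE n)) := by
      have h0 := (EuclideanSpace.basisFun (Fin n) ℝ).toBasis.linearIndependent
      have h2 : (fun i : Fin n => (ee i : EE n))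
          = ⇑(EuclideanSpace.basisFun (Fin n) ℝ).toBasis := by
        funext i
        simp [ee]
      rw [h2]
      exact h0
    exact h1.map' L.toLinearMap (LinearMap.ker_eq_bot.2 L.injective)
  refine ⟨?_, ?_, ?_⟩
  · have hJ : ∀ᶠ z in 𝓝 ((0 : EE n), t₀), z.2 ∈ J :=
      continuousAt_snd.eventually (hF.op.mem_nhds ht₀)
    have hu : ∀ᶠ z in 𝓝 ((0 : EE n), t₀), ContDiffAt ℝ 2 u z :=
      hu2.eventually (by simp)
    filter_upwards [hJ, hu, hC.fs] with z hz hz2 hz3 U V
    have hg : ContDiffAt ℝ 2 (grf (F p₀ t₀) L u z.2) z.1 := by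
      have h3 : ContDiffAt ℝ 2 (fun x : EE n => ((x, z.2) : EE n × ℝ)) z.1 :=
        contDiffAt_id.prodMk contDiffAt_const
      have h4 : ContDiffAt ℝ 2 (fun x : EE n => u (x, z.2)) z.1 :=
        ContDiffAt.comp z.1 (g := u) (by simpa using hz2) h3
      have h5 : ContDiffAt ℝ 2 (fun x : EE n => F p₀ t₀ + L x) z.1 :=
        contDiffAt_const.add (L.toContinuousLinearMap.contDiff.contDiffAt)
      exact h5.add h4
    exact gcp_pol (A := sff (loc (n := n) F (θ z) z.2) (chartAt (EE n) (θ z) (θ z)))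
      (B := sff (grf (F p₀ t₀) L u z.2) z.1) (gcp_sff (hloc _ _ hz)) (gcp_sff hg)
      (a := fun i => dv1 (loc (n := n) F (θ z) z.2) (chartAt (EE n) (θ z) (θ z)) i)
      (b := fun i => dv1 (grf (F p₀ t₀) L u z.2) z.1 i) (hF.imm _ _ hz) hz3 U V
  · intro c d
    obtain ⟨U, V, h1, h2, h3⟩ := gcp_pol
      (A := jgg u (0, t₀))
      (B := sff (loc (n := n) F p₀ t₀) (chartAt (EE n) p₀ p₀))
      (gcp_jgg hu2) (gcp_sff (hloc _ _ ht₀))
      (a := fun i => L (ee i))
      (b := fun i => dv1 (loc (n := n) F p₀ t₀) (chartAt (EE n) p₀ p₀) i) hLI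
      (fun c => by
        obtain ⟨U, h1, h2⟩ := hC.fs' c
        exact ⟨U, h1.symm, h2.symm⟩) c d
    exact ⟨U, V, h1.symm, h2.symm, h3.symm⟩
  · refine gcp_pol (A := sff (loc (n := n) F p₀ t₀) (chartAt (EE n) p₀ p₀))
      (B := jgg u (0, t₀)) (gcp_sff (hloc _ _ ht₀)) (gcp_jgg hu2)
      (a := fun i => dv1 (loc (n := n) F p₀ t₀) (chartAt (EE n) p₀ p₀) i)
      (b := fun i => L (ee i)) (hF.imm _ _ ht₀) ?_
    intro U
    have hmem : (∑ i, U i • L (ee i)) ∈ TS (n := n) F p₀ t₀ := by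
      rw [← hC.rg]
      refine ⟨∑ i, U i • ee i, ?_⟩
      simp [map_sum]
    obtain ⟨c, hc⟩ := (Submodule.mem_span_range_iff_exists_fun ℝ).1 hmem
    obtain ⟨U', h1, h2⟩ := hC.fs' c
    have hU : U' = U := by
      have h0 : ∑ i, (U' i - U i) • L (ee i) = 0 := by
        simp only [sub_smul, Finset.sum_sub_distrib]
        rw [← hc, ← h1]
        exact sub_self _
      have h3 := (Fintype.linearIndependent_iff.1 hLI) _ h0
      funext i
      linarith [h3 i]
    rw [hU] at h2
    exact ⟨c, hc, h2⟩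

end Helper99.HC
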